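import Pool.Agent.T9h77.Fish.C1b

set_option autoImplicit false

/-! C1: the generating tree of the inverses of the Fishburn permutations avoiding `3214`. -/

namespace Pool.Agent.T9h72.Fish

open List

theorem kidsR_zero (N : ℕ) (B : List ℕ) : ∀ Q : List ℕ, ¬ Av321 Q → kidsR V1 N Q B = [] := by
  induction B with
  | nil =>
    intro Q h
    unfold kidsR
    rw [if_neg (fun h1 => h h1.1)]
  | cons b B ih =>
    intro Q h
    unfold kidsR
    rw [if_neg (fun h1 => h h1.1), ih (Q ++ [b]) (fun h1 => h (av_mono h1 (sublist_append_left _ _)))]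
    rfl

theorem nR_cons (Q B : List ℕ) (b : ℕ) [Decidable (V1 Q (b :: B))] :
    nR Q (b :: B) = (if V1 Q (b :: B) then 1 else 0) + nR (Q ++ [b]) B := by
  have e : nR Q (b :: B) = @ite ℕ (V1 Q (b :: B)) (Classical.propDecidable _) 1 0 +
      nR (Q ++ [b]) B := rfl
  rw [e]
  congr 1
  by_cases h : V1 Q (b :: B)
  · rw [if_pos h, if_pos h]
  · rw [if_neg h, if_neg h]

theorem nR_nil {Q : List ℕ} (h : Av321 Q) : nR Q [] = 1 := by
  unfold nR
  exact if_pos ⟨h, gd_nil Q⟩

/-- appending a maximum -/
theorem av_snoc {N : ℕ} {Q : List ℕ} (h : ∀ v ∈ Q, v < N) : Av321 (Q ++ [N]) ↔ Av321 Q := by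
  rw [av_insert (by rw [append_nil]; exact h), append_nil]
  exact and_iff_left inc_nil

open Classical in
theorem right_rep {N m : ℕ} (hmN : m + 1 = N) (B : List ℕ) : ∀ (Q Q' : List ℕ) (x a : ℕ)
    (τ : List ℕ), Q = Q' ++ [x] → m ∈ Q' → x < m → Q.length + B.length = N →
    (∀ v ∈ Q, v < N) → (∀ v ∈ B, v < m) → (Q ++ B).Nodup → FshI (Q ++ B) → a ≠ 0 →
    cs Q.reverse = (a, τ) →
    Forall₂ Rep (kidsR V1 N Q B)
      ((range (nR Q B)).map (fun j => ((a + j) :: τ, nR Q B - 1 - j))) := by
  induction B with
  | nil =>
    intro Q Q' x a τ hQ hm hx hl hQN _ _ _ ha hcs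
    by_cases hav : Av321 Q
    · have hav' : Av321 (Q ++ [N]) := (av_snoc hQN).2 hav
      have e1 : kidsR V1 N Q [] = [Q ++ [N]] := by
        unfold kidsR
        exact if_pos ⟨hav, gd_nil Q⟩
      rw [e1, nR_nil hav]
      simp only [range_one, map_cons, map_nil, add_zero, Nat.sub_self]
      refine Forall₂.cons ⟨Q, N, [], rfl, by rw [append_nil]; exact hQN, ?_, ?_⟩ Forall₂.nil
      · unfold st
        rw [hcs, push1_pos ha]
      · rw [nR_nil hav']
    · rw [kidsR_zero N [] Q hav, nR_zero [] Q hav]
      exact Forall₂.nil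
  | cons r B ih =>
    intro Q Q' x a τ hQ hm hx hl hQN hB hnd hF ha hcs
    by_cases hav : Av321 Q
    · have hrm : r < m := hB r (by simp)
      have hmQ : m ∈ Q := by rw [hQ]; simp [hm]
      have hval : V1 Q (r :: B) ↔ r + 1 ∈ Q := by
        rw [V1_iff, gd_cons]
        constructor
        · rintro ⟨-, h | h⟩
          · exact h
          · simp only [length_cons] at hl
            omega
        · exact fun h => ⟨hav, Or.inl h⟩
      have hbig : ∀ v ∈ Q ++ r :: B, v < N := by
        intro v hv
        rcases mem_append.1 hv with h | h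
        · exact hQN v h
        · have := hB v h
          omega
      have hst : st Q.reverse = a :: τ := by
        unfold st
        rw [hcs, push1_pos ha]
      have hnew : nR (Q ++ [N]) (r :: B) = nR Q (r :: B) := nR_new hmQ hmN hl hB hQN
      have e1 : kidsR V1 N Q (r :: B) =
          (if V1 Q (r :: B) then [Q ++ N :: r :: B] else []) ++ kidsR V1 N (Q ++ [r]) B := rfl
      have hne : r ≠ x := by
        rintro rfl
        rw [hQ, append_assoc] at hnd
        have h1 := hnd.sublist (sublist_append_right Q' _)
        simp at h1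
      have erev : (Q ++ [r]).reverse = r :: x :: Q'.reverse := by
        rw [hQ]
        simp
      have ecs : cs (r :: x :: Q'.reverse) = if r < x then (1, push1 (cs (x :: Q'.reverse)).1
          (cs (x :: Q'.reverse)).2) else ((cs (x :: Q'.reverse)).1 +
          (if r + 1 ∈ x :: Q'.reverse then 1 else 0), (cs (x :: Q'.reverse)).2) := rfl
      have hcs' : cs (x :: Q'.reverse) = (a, τ) := by
        rw [← hcs, hQ]
        simp
      have hmem : r + 1 ∈ x :: Q'.reverse ↔ r + 1 ∈ Q := by
        rw [hQ]
        simp only [mem_cons, mem_reverse, mem_append, not_mem_nil, or_false]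
        tauto
      rw [hcs', if_congr hmem rfl rfl] at ecs
      rw [e1]
      by_cases hd : r < x
      · -- a descent
        have h1 : r + 1 ∈ Q := by
          have h2 := hF Q' x r B (by rw [hQ]; simp) hd
          rw [hQ]
          simp only [mem_append, mem_cons, not_mem_nil, or_false]
          tauto
        have h2 : ¬ Av321 (Q ++ [r]) := by
          intro h3
          refine h3 m x r ?_ ⟨hd, hx⟩
          have h4 : ([m] ++ [x, r]).Sublist (Q' ++ [x, r]) :=
            (singleton_sublist.2 hm).append (Sublist.refl _)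
          have h5 : Q ++ [r] = Q' ++ [x, r] := by rw [hQ]; simp
          rw [h5]
          exact h4
        rw [if_pos (hval.2 h1), kidsR_zero N B _ h2, append_nil]
        have h3 : nR Q (r :: B) = 1 := by
          rw [nR_cons, if_pos (hval.2 h1), nR_zero B _ h2]
        rw [h3]
        simp only [range_one, map_cons, map_nil, add_zero, Nat.sub_self]
        refine Forall₂.cons ⟨Q, N, r :: B, rfl, hbig, hst.symm, ?_⟩ Forall₂.nil
        show 0 + 1 = nR (Q ++ [N]) (r :: B)
        rw [hnew, h3]
      · have hIH : ∀ b : ℕ, b ≠ 0 → cs (Q ++ [r]).reverse = (b, τ) →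
            Forall₂ Rep (kidsR V1 N (Q ++ [r]) B) ((range (nR (Q ++ [r]) B)).map
              (fun j => ((b + j) :: τ, nR (Q ++ [r]) B - 1 - j))) := fun b hb hcb =>
          ih (Q ++ [r]) Q r b τ rfl hmQ hrm (by
              simp only [length_append, length_cons, length_nil] at hl ⊢
              omega)
            (fun v hv => hbig v (by
              simp only [mem_append, mem_cons, not_mem_nil, or_false] at hv ⊢
              tauto))
            (fun v hv => hB v (mem_cons_of_mem _ hv))
            (by rw [append_assoc, singleton_append]; exact hnd)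
            (by rw [append_assoc, singleton_append]; exact hF) hb hcb
        rw [if_neg hd] at ecs
        by_cases hg : r + 1 ∈ Q
        · rw [if_pos hg] at ecs
          have h1 := hIH (a + 1) (by omega) (by rw [erev, ecs])
          rw [if_pos (hval.2 hg), nR_cons, if_pos (hval.2 hg), add_comm 1, range_succ_eq_map,
            map_cons, map_map, singleton_append]
          refine Forall₂.cons ⟨Q, N, r :: B, rfl, hbig, ?_, ?_⟩ ?_
          · show (a + 0) :: τ = st Q.reverse
            rw [hst, add_zero]
          · show nR (Q ++ [r]) B + 1 - 1 - 0 + 1 = nR (Q ++ [N]) (r :: B)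
            rw [hnew, nR_cons, if_pos (hval.2 hg)]
            omega
          · refine (Eq.mp ?_ h1)
            congr 1
            refine map_congr_left fun j _ => ?_
            simp only [Function.comp]
            rw [Prod.mk.injEq]
            constructor
            · congr 1
              omega
            · omega
        · rw [if_neg hg] at ecs
          have h1 := hIH a ha (by rw [erev, ecs, add_zero])
          rw [if_neg (fun h => hg (hval.1 h)), nil_append, nR_cons,
            if_neg (fun h => hg (hval.1 h)), zero_add]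
          exact h1
    · rw [kidsR_zero N (r :: B) Q hav, nR_zero (r :: B) Q hav]
      exact Forall₂.nil

theorem forall₂_perm {α β : Type} {r : α → β → Prop} {l : List α} {s t : List β}
    (h : Forall₂ r l s) (hp : s.Perm t) : ∃ l' : List α, l'.Perm l ∧ Forall₂ r l' t := by
  have h1 : (Relation.Comp (Forall₂ r) Perm) l t := ⟨s, h, hp⟩
  rw [forall₂_comp_perm_eq_perm_comp_forall₂] at h1
  obtain ⟨l', h2, h3⟩ := h1
  exact ⟨l', h2.symm, h3⟩

theorem st_cons_max {m : ℕ} {R : List ℕ} (h : ∀ v ∈ R, v < m) : st (m :: R) = st R := by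
  cases R with
  | nil => rfl
  | cons e R =>
    have h1 : e < m := h e (by simp)
    have h2 : m + 1 ∉ e :: R := by
      intro h3
      have := h _ h3
      omega
    have h3 : cs (m :: e :: R) = cs (e :: R) := by
      have e1 : cs (m :: e :: R) = if m < e then (1, push1 (cs (e :: R)).1 (cs (e :: R)).2)
        else ((cs (e :: R)).1 + (if m + 1 ∈ e :: R then 1 else 0), (cs (e :: R)).2) := rfl
      rw [e1, if_neg (by omega), if_neg h2]
      rfl
    unfold st
    rw [h3]

open Classical in
/-- the children of a list of the class -/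
theorem kids_rep (n : ℕ) (l : List ℕ) (s : List ℕ × ℕ) (hp : l.Perm (range (n + 1))) (h : P1 l)
    (hr : Rep l s) : ∃ L, L.Perm (kids V1 l) ∧ Forall₂ Rep L (ch1 s) := by
  obtain ⟨A, m, B, rfl, hmax, hs1, hs2⟩ := hr
  obtain ⟨hF, hAv⟩ := h
  have hlen : A.length + (B.length + 1) = n + 1 := by
    have := hp.length_eq
    simpa using this
  have hlt := lt_of_perm hp
  have hmn : m = n := by
    have h1 : n ∈ A ++ m :: B := by rw [hp.mem_iff]; simp
    have h2 : m < n + 1 := hlt m (by simp)
    by_contra hne
    have h3 : n ∈ A ++ B := by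
      simp only [mem_append, mem_cons] at h1 ⊢
      rcases h1 with h | h | h
      · exact Or.inl h
      · exact absurd h.symm hne
      · exact Or.inr h
    have := hmax n h3
    omega
  subst hmn
  have hnd : (A ++ m :: B).Nodup := hp.nodup_iff.2 nodup_range
  have hA : ∀ v ∈ A, v < m := fun v hv => hmax v (mem_append_left _ hv)
  have hB : ∀ v ∈ B, v < m := fun v hv => hmax v (mem_append_right _ hv)
  have havA : Av321 A := ((av3214_insert hmax).1 hAv).2
  have havm : Av321 (A ++ [m]) := (av_snoc hA).2 havA
  have hhead : ∀ e B', B = e :: B' → e + 1 ∈ A ∨ e + 1 = m := ((fshI_insert hmax).1 hF).2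
  have hfr : FR A.reverse := fr_of (by rw [reverse_reverse]; exact fshI_prefix hF)
  -- the first site on the right
  have hv0 : V1 (A ++ [m]) B := by
    refine ⟨havm, fun e B' he => Or.inl ?_⟩
    rcases hhead e B' he with h | h
    · exact mem_append_left _ h
    · rw [h]; simp
  have hN1 : ∀ Q : List ℕ, (∀ v ∈ Q, v ∈ A) → Av321 (Q ++ [m]) → Av321 (A ++ [m]) := by
    intro Q _ _
    exact havm
  clear hN1
  -- insertions just before `m`
  have hlast : ∀ Q T : List ℕ, Q ++ T = A → (∀ a b : ℕ, [a, b].Sublist T → ¬ b < a) →
      nR (Q ++ (m + 1) :: T) (m :: B) = 2 := by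
    intro Q T hQT hT
    have hlt' : ∀ v ∈ Q ++ T, v < m + 1 := by
      rw [hQT]
      intro v hv
      have := hA v hv
      omega
    have h1 : Av321 (Q ++ (m + 1) :: T) := by
      rw [av_insert hlt', hQT]
      exact ⟨havA, (inc_iff T).2 hT⟩
    have h2 : V1 (Q ++ (m + 1) :: T) (m :: B) := by
      refine ⟨h1, fun e B' he => Or.inl ?_⟩
      simp only [cons.injEq] at he
      rw [← he.1]
      simp
    have e3 : (Q ++ (m + 1) :: T) ++ [m] = Q ++ (m + 1) :: (T ++ [m]) := by simp
    have h3 : Av321 (Q ++ (m + 1) :: (T ++ [m])) := by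
      rw [av_insert (by
        rw [← append_assoc, hQT]
        intro v hv
        rcases mem_append.1 hv with h | h
        · have := hA v h
          omega
        · simp only [mem_cons, not_mem_nil, or_false] at h
          omega), ← append_assoc, hQT]
      refine ⟨havm, ?_⟩
      unfold Inc
      rw [pairwise_append]
      refine ⟨(inc_iff T).2 hT, pairwise_singleton _ _, fun a ha b hb => ?_⟩
      simp only [mem_cons, not_mem_nil, or_false] at hb
      have h4 : a ∈ A := by rw [← hQT]; exact mem_append_right _ ha
      have := hA a h4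
      omega
    have h4 : V1 ((Q ++ (m + 1) :: T) ++ [m]) B := by
      rw [e3]
      refine ⟨h3, fun e B' he => Or.inl ?_⟩
      rcases hhead e B' he with h | h
      · rw [← hQT] at h
        simp only [mem_append, mem_cons] at h ⊢
        tauto
      · rw [h]; simp
    have h5 : nR ((Q ++ (m + 1) :: T) ++ [m]) B = 1 := by
      cases B with
      | nil => exact nR_nil h4.1
      | cons r B' =>
        rw [nR_cons, if_pos h4, nR_zero]
        intro h6
        have h7 : r < m := hB r (by simp)
        refine h6 (m + 1) m r ?_ ⟨h7, by omega⟩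
        have e4 : (Q ++ (m + 1) :: T) ++ [m] ++ [r] = Q ++ ([m + 1] ++ (T ++ [m, r])) := by simp
        rw [e4]
        refine Sublist.trans ?_ (sublist_append_right _ _)
        exact (Sublist.refl [m + 1]).append (sublist_append_right T [m, r])
    rw [nR_cons, if_pos h2, h5]
  -- the left part
  have hL := left_rep (N := m + 1) A.reverse (m :: B) 2 (by simpa using hlen)
    (fun v hv => by
      have := hA v (mem_reverse.1 hv)
      omega)
    (fun v hv => by
      rcases mem_cons.1 hv with h | h
      · omega
      · have := hB v h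
        omega)
    (by
      have : (A.reverse ++ m :: B).Perm (A ++ m :: B) := (reverse_perm A).append_right _
      exact this.nodup_iff.2 hnd)
    (by rw [reverse_reverse]; exact havA) hfr
    (fun e R' he => by
      refine hlast R'.reverse [e] ?_ ?_
      · have := congrArg List.reverse he
        simpa using this.symm
      · intro a b hab
        have := hab.length_le
        simp at this)
  have hkl := kidsL_perm (m + 1) A.reverse (m :: B)
  rw [reverse_reverse] at hkl
  have ekids : kids V1 (A ++ m :: B) = kidsR V1 (m + 1) [] (A ++ m :: B) := by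
    rw [kids_eq]
    congr 1
    simp only [length_append, length_cons]
    omega
  rw [ekids]
  -- the site just before `m`
  have hvA : V1 A (m :: B) := by
    refine ⟨havA, fun e B' he => Or.inr ?_⟩
    simp only [cons.injEq] at he
    rw [← he.1, length_cons]
    omega
  have e0 : kidsR V1 (m + 1) A (m :: B) =
      (if V1 A (m :: B) then [A ++ (m + 1) :: m :: B] else []) ++ kidsR V1 (m + 1) (A ++ [m]) B :=
    rfl
  rw [if_pos hvA] at e0
  have hbig : ∀ v ∈ A ++ m :: B, v < m + 1 := hlt
  have hrep1 : Rep (A ++ (m + 1) :: m :: B) (st A.reverse, 1) := by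
    refine ⟨A, m + 1, m :: B, rfl, hbig, rfl, ?_⟩
    show 1 + 1 = nR (A ++ [m + 1]) (m :: B)
    rw [hlast A [] (append_nil A) (fun a b hab => by
      have := hab.length_le
      simp at this)]
  -- the right part
  have hnew : nR (A ++ [m] ++ [m + 1]) B = nR (A ++ [m]) B :=
    nR_new (m := m) (by simp) rfl (by simp only [length_append, length_cons, length_nil]; omega)
      hB (fun v hv => hbig v (by
        simp only [mem_append, mem_cons, not_mem_nil, or_false] at hv ⊢
        tauto))
  have hrep0 : Rep ((A ++ [m]) ++ (m + 1) :: B) s := by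
    refine ⟨A ++ [m], m + 1, B, rfl, fun v hv => hbig v (by
      simp only [mem_append, mem_cons, not_mem_nil, or_false] at hv ⊢
      tauto), ?_, ?_⟩
    · rw [reverse_append, reverse_singleton, singleton_append, st_cons_max (fun v hv =>
        hA v (mem_reverse.1 hv)), hs1]
    · rw [hnew, hs2]
  obtain ⟨Lr, hLr1, hLr2⟩ : ∃ Lr : List (List ℕ),
      kidsR V1 (m + 1) (A ++ [m]) B = ((A ++ [m]) ++ (m + 1) :: B) :: Lr ∧
      Forall₂ Rep Lr ((range s.2).map (fun i => ((i + 1) :: s.1, s.2 - (i + 1)))) := by
    cases B with
    | nil =>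
      refine ⟨[], ?_, ?_⟩
      · unfold kidsR
        exact if_pos hv0
      · rw [nR_nil havm] at hs2
        have h1 : s.2 = 0 := by omega
        rw [h1]
        exact Forall₂.nil
    | cons r B =>
      refine ⟨kidsR V1 (m + 1) (A ++ [m] ++ [r]) B, ?_, ?_⟩
      · have e1 : kidsR V1 (m + 1) (A ++ [m]) (r :: B) =
          (if V1 (A ++ [m]) (r :: B) then [(A ++ [m]) ++ (m + 1) :: r :: B] else []) ++
            kidsR V1 (m + 1) (A ++ [m] ++ [r]) B := rfl
        rw [e1, if_pos hv0]
        rfl
      · have hr : r < m := hB r (by simp)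
        rw [nR_cons, if_pos hv0] at hs2
        have h1 : nR (A ++ [m] ++ [r]) B = s.2 := by omega
        have h2 := right_rep (N := m + 1) (m := m) rfl B (A ++ [m] ++ [r]) (A ++ [m]) r 1
          (st A.reverse) rfl (by simp) hr
          (by
            simp only [length_append, length_cons, length_nil] at hlen ⊢
            omega)
          (fun v hv => hbig v (by
            simp only [mem_append, mem_cons, not_mem_nil, or_false] at hv ⊢
            tauto))
          (fun v hv => hB v (mem_cons_of_mem _ hv))
          (by simpa using hnd) (by simpa using hF) one_ne_zero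
          (by
            have e1 : (A ++ [m] ++ [r]).reverse = r :: m :: A.reverse := by simp
            have e2 : cs (r :: m :: A.reverse) = if r < m then
              (1, push1 (cs (m :: A.reverse)).1 (cs (m :: A.reverse)).2) else
              ((cs (m :: A.reverse)).1 + (if r + 1 ∈ m :: A.reverse then 1 else 0),
                (cs (m :: A.reverse)).2) := rfl
            rw [e1, e2, if_pos hr]
            exact congrArg (Prod.mk 1) (st_cons_max (fun v hv => hA v (mem_reverse.1 hv))))
        rw [h1] at h2
        rw [hs1]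
        refine Eq.mp ?_ h2
        congr 1
        refine map_congr_left fun j _ => ?_
        rw [Prod.mk.injEq]
        constructor
        · rw [add_comm]
        · omega
  -- assembly
  have hF2 : Forall₂ Rep (((A ++ [m]) ++ (m + 1) :: B) :: (A ++ (m + 1) :: m :: B) ::
      (Lr ++ kidsL (m + 1) A.reverse (m :: B)))
      (s :: (s.1, 1) :: ((range s.2).map (fun i => ((i + 1) :: s.1, s.2 - (i + 1))) ++
        TL A.reverse 2)) := by
    refine Forall₂.cons hrep0 (Forall₂.cons ?_ (rel_append hLr2 hL))
    rw [hs1]
    exact hrep1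
  have hperm : (s :: (s.1, 1) :: ((range s.2).map (fun i => ((i + 1) :: s.1, s.2 - (i + 1))) ++
        TL A.reverse 2)).Perm (ch1 s) := by
    have e1 : ch1 s = s :: (s.1, 1) :: ((range s.2).map
      (fun i => ((i + 1) :: s.1, s.2 - (i + 1))) ++ blk1 s.1) := rfl
    rw [e1, hs1]
    refine Perm.cons _ (Perm.cons _ (Perm.append_left _ (TL_blk hfr)))
  obtain ⟨L, hL1, hL2⟩ := forall₂_perm hF2 hperm
  refine ⟨L, hL1.trans (Perm.trans ?_ hkl), hL2⟩
  rw [e0, hLr1, singleton_append]
  refine Perm.trans ?_ perm_append_comm
  rw [cons_append, cons_append]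
  exact Perm.swap _ _ _

theorem rep_root : Rep [0] ([], 0) := by
  refine ⟨[], 0, [], rfl, ?_, rfl, ?_⟩
  · intro v hv
    exact absurd hv not_mem_nil
  · show 0 + 1 = nR ([] ++ [0]) []
    rw [nR_nil]
    intro a b c h
    have := h.length_le
    simp at this

/-- **C1** -/
theorem card1 (n : ℕ) :
    {l : List ℕ | l.Perm (List.range (n + 1)) ∧ (FshI l ∧ Av3214 l)}.ncard = cnt ch1 n ([], 0) :=
  ncard_tree P1 V1 ch1 Rep ([], 0) p1_zero hV1 rep_root kids_rep n

end Pool.Agent.T9h72.Fish
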