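import Pool.Agent.T9h72.Fish.KidsR

set_option autoImplicit false

/-! C1: the generating tree of the inverses of the Fishburn permutations avoiding `3214`. -/

namespace Pool.Agent.T9h72.Fish

open List

/-- sites for the inverses of the `3214`-avoiders -/
def V1 (A B : List ℕ) : Prop :=
  (∀ a b c : ℕ, [a, b, c].Sublist A → ¬ (c < b ∧ b < a)) ∧
    ∀ e B', B = e :: B' → e + 1 ∈ A ∨ e + 1 = A.length + B.length

/-- no `321` -/
def Av321 (A : List ℕ) : Prop := ∀ a b c : ℕ, [a, b, c].Sublist A → ¬ (c < b ∧ b < a)

/-- the head is good -/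
def Gd (A B : List ℕ) : Prop := ∀ e B', B = e :: B' → e + 1 ∈ A ∨ e + 1 = A.length + B.length

theorem V1_iff (A B : List ℕ) : V1 A B ↔ Av321 A ∧ Gd A B := Iff.rfl

theorem gd_nil (A : List ℕ) : Gd A [] := by
  intro e B' h
  simp at h

theorem gd_cons (A B : List ℕ) (e : ℕ) :
    Gd A (e :: B) ↔ e + 1 ∈ A ∨ e + 1 = A.length + (B.length + 1) := by
  constructor
  · intro h
    exact h e B rfl
  · intro h e' B' h'
    simp only [cons.injEq] at h'
    obtain ⟨rfl, rfl⟩ := h'
    exact h

/-- increasing -/
def Inc (W : List ℕ) : Prop := W.Pairwise (fun a b => ¬ b < a)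

theorem av_mono {A B : List ℕ} (h : Av321 B) (hs : A.Sublist B) : Av321 A :=
  fun a b c h1 => h a b c (h1.trans hs)

theorem inc_iff (W : List ℕ) : Inc W ↔ ∀ a b : ℕ, [a, b].Sublist W → ¬ b < a := by
  unfold Inc
  exact List.pairwise_iff_forall_sublist.trans
    ⟨fun h a b h1 => h h1, fun h a b h1 => h a b h1⟩

/-- insertion of a large letter -/
theorem av_insert {N : ℕ} {Q W : List ℕ} (h : ∀ v ∈ Q ++ W, v < N) :
    Av321 (Q ++ N :: W) ↔ Av321 (Q ++ W) ∧ Inc W := by
  have hQ : N ∉ Q := fun h1 => lt_irrefl _ (h N (mem_append_left _ h1))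
  have hW : N ∉ W := fun h1 => lt_irrefl _ (h N (mem_append_right _ h1))
  constructor
  · intro h1
    refine ⟨av_mono h1 ((Sublist.refl Q).append (sublist_cons_self N W)), ?_⟩
    rw [inc_iff]
    intro a b h2 h3
    have h4 : [N, a, b].Sublist (Q ++ N :: W) := (h2.cons_cons N).trans (sublist_append_right _ _)
    have ha : a < N := h a (mem_append_right _ (h2.subset (by simp)))
    exact h1 N a b h4 ⟨h3, ha⟩
  · rintro ⟨h1, h2⟩ a b c h3 ⟨h4, h5⟩
    rw [inc_iff] at h2
    by_cases haN : a = N
    · subst haN
      have h6 := sublist_tail_of_insert h3 hQ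
      exact h2 b c h6 h4
    · have hmem : ∀ x ∈ [a, b, c], x ≤ N := by
        intro x hx
        have h7 := h3.subset hx
        simp only [mem_append, mem_cons] at h7
        rcases h7 with h7 | h7 | h7
        · exact (h x (mem_append_left _ h7)).le
        · exact h7.le
        · exact (h x (mem_append_right _ h7)).le
      have h8 : a ≤ N := hmem a (by simp)
      have h9 : N ∉ [a, b, c] := by
        simp only [mem_cons, not_mem_nil, or_false, not_or]
        refine ⟨fun h => haN h.symm, ?_, ?_⟩ <;> omega
      exact h1 a b c (sublist_of_insert h3 h9) ⟨h4, h5⟩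

theorem inc_nil : Inc [] := Pairwise.nil

theorem inc_cons (x : ℕ) (W : List ℕ) : Inc (x :: W) ↔ (∀ y ∈ W, ¬ y < x) ∧ Inc W :=
  pairwise_cons

theorem inc_single (x : ℕ) : Inc [x] := by
  rw [inc_cons]
  exact ⟨fun y hy => absurd hy (not_mem_nil), inc_nil⟩

/-! ### the class -/

/-- the class -/
def P1 (l : List ℕ) : Prop := FshI l ∧ Av3214 l

theorem p1_zero : P1 [0] := by
  constructor
  · intro A x y B h
    have := congrArg List.length h
    simp at this
    omega
  · intro a b c d h
    have := h.length_le
    simp at this

theorem fshI_insert {N : ℕ} {A B : List ℕ} (h : ∀ v ∈ A ++ B, v < N) :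
    FshI (A ++ N :: B) ↔ FshI (A ++ B) ∧ ∀ e B', B = e :: B' → e + 1 ∈ A ∨ e + 1 = N := by
  constructor
  · intro h1
    constructor
    · intro A' x y B' h2 h3
      have hx : x < N := h x (by rw [h2]; simp)
      rcases List.append_eq_append_iff.1 h2 with ⟨C, h4, h5⟩ | ⟨C, h4, h5⟩
      · -- `A' = A ++ C`, `B = C ++ x :: y :: B'`
        subst h4 h5
        have h6 := h1 (A ++ N :: C) x y B' (by simp) h3
        rcases h6 with h6 | h6
        · exact Or.inl h6
        · right
          simp only [mem_append, mem_cons] at h6 ⊢
          rcases h6 with h6 | h6 | h6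
          · exact Or.inl h6
          · omega
          · exact Or.inr h6
      · -- `A = A' ++ C`, `x :: y :: B' = C ++ B`
        subst h4
        match C, h5 with
        | [], h5 =>
          simp only [nil_append] at h5
          subst h5
          have h6 := h1 (A' ++ [N]) x y B' (by simp) h3
          rcases h6 with h6 | h6
          · exact Or.inl h6
          · right
            simp only [mem_append, mem_cons, not_mem_nil, or_false] at h6
            rcases h6 with h6 | h6
            · exact h6
            · omega
        | [x'], h5 =>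
          simp only [cons_append, nil_append, cons.injEq] at h5
          obtain ⟨rfl, h5⟩ := h5
          subst h5
          have h6 := h1 (A' ++ [x]) N y B' (by simp) (by omega)
          rcases h6 with h6 | h6
          · omega
          · simp only [mem_append, mem_cons, not_mem_nil, or_false] at h6
            rcases h6 with h6 | h6
            · exact Or.inr h6
            · exact Or.inl h6
        | x' :: y' :: C, h5 =>
          simp only [cons_append, cons.injEq] at h5
          obtain ⟨rfl, rfl, h5⟩ := h5
          exact h1 A' x y (C ++ N :: B) (by simp) h3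
    · intro e B' h2
      subst h2
      have he : e < N := h e (by simp)
      rcases h1 A N e B' rfl he with h3 | h3
      · exact Or.inr h3
      · exact Or.inl h3
  · rintro ⟨h1, h2⟩ A' x y B' h3 h4
    rcases List.append_eq_append_iff.1 h3 with ⟨C, h5, h6⟩ | ⟨C, h5, h6⟩
    · -- `A' = A ++ C`, `N :: B = C ++ x :: y :: B'`
      subst h5
      cases C with
      | nil =>
        simp only [nil_append, cons.injEq] at h6
        obtain ⟨rfl, rfl⟩ := h6
        rcases h2 y B' rfl with h7 | h7
        · right
          simpa using h7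
        · exact Or.inl h7
      | cons c C =>
        simp only [cons_append, cons.injEq] at h6
        obtain ⟨rfl, rfl⟩ := h6
        rcases h1 (A ++ C) x y B' (by simp) h4 with h7 | h7
        · exact Or.inl h7
        · right
          simp only [mem_append, mem_cons] at h7 ⊢
          tauto
    · -- `A = A' ++ C`, `x :: y :: B' = C ++ N :: B`
      subst h5
      match C, h6 with
      | [], h8 =>
        simp only [nil_append, cons.injEq] at h8
        obtain ⟨rfl, h9⟩ := h8
        rcases h2 y B' h9.symm with h7 | h7
        · right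
          simpa using h7
        · exact Or.inl h7
      | [x'], h6 =>
        simp only [cons_append, nil_append, cons.injEq] at h6
        obtain ⟨rfl, rfl, h6⟩ := h6
        have hx : x < y := h x (by simp)
        omega
      | x' :: y' :: C, h6 =>
        simp only [cons_append, cons.injEq] at h6
        obtain ⟨rfl, rfl, h6⟩ := h6
        exact h1 A' x y (C ++ B) (by simp) h4

theorem av3214_insert {N : ℕ} {A B : List ℕ} (h : ∀ v ∈ A ++ B, v < N) :
    Av3214 (A ++ N :: B) ↔ Av3214 (A ++ B) ∧ Av321 A := by
  have hA : N ∉ A := fun h1 => lt_irrefl _ (h N (mem_append_left _ h1))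
  have hB : N ∉ B := fun h1 => lt_irrefl _ (h N (mem_append_right _ h1))
  constructor
  · intro h1
    constructor
    · intro a b c d h2
      exact h1 a b c d (sublist_insert h2)
    · intro a b c h2 h3
      have ha : a < N := h a (mem_append_left _ (h2.subset (by simp)))
      refine h1 a b c N ?_ ⟨h3.1, h3.2, ha⟩
      have h4 : ([a, b, c] ++ [N]).Sublist (A ++ N :: B) :=
        h2.append (by simp)
      exact h4
  · rintro ⟨h1, h2⟩ a b c d h3 ⟨h4, h5, h6⟩
    by_cases hd : d = N
    · subst hd
      have h7 : ([a, b, c] ++ [d]).Sublist (A ++ d :: B) := h3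
      exact h2 a b c (sublist_head_of_insert h7 hB) ⟨h4, h5⟩
    · have hdN : d ≤ N := by
        have h7 := h3.subset (show d ∈ [a, b, c, d] by simp)
        simp only [mem_append, mem_cons] at h7
        rcases h7 with h7 | h7 | h7
        · exact (h d (mem_append_left _ h7)).le
        · exact h7.le
        · exact (h d (mem_append_right _ h7)).le
      have h8 : N ∉ [a, b, c, d] := by
        simp only [mem_cons, not_mem_nil, or_false, not_or]
        refine ⟨?_, ?_, ?_, fun h => hd h.symm⟩ <;> omega
      exact h1 a b c d (sublist_of_insert h3 h8) ⟨h4, h5, h6⟩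

theorem lt_of_perm {n : ℕ} {l : List ℕ} (h : l.Perm (range (n + 1))) : ∀ v ∈ l, v < n + 1 := by
  intro v hv
  rw [h.mem_iff] at hv
  simpa using hv

theorem hV1 (n : ℕ) (A B : List ℕ) (h : (A ++ B).Perm (range (n + 1))) :
    P1 (A ++ (n + 1) :: B) ↔ P1 (A ++ B) ∧ V1 A B := by
  have h1 := lt_of_perm h
  have hl : A.length + B.length = n + 1 := by
    have := h.length_eq
    simpa using this
  unfold P1
  rw [fshI_insert h1, av3214_insert h1, V1_iff]
  unfold Gd
  rw [hl]
  tauto

end Pool.Agent.T9h72.Fish
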