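import Pool.Agent.T9h77.Fish.C1a

set_option autoImplicit false

/-! C1, part 2: the states, and insertions to the left of the maximum. -/

namespace Pool.Agent.T9h72.Fish

open List

/-! ### the states -/

/-- for the reversed prefix: the number of the valid sites before the entries of the last run, and the
stack of the lower runs -/
def cs : List ℕ → ℕ × List ℕ
  | [] => (0, [])
  | [_] => (0, [])
  | e :: x :: R => if e < x then (1, push1 (cs (x :: R)).1 (cs (x :: R)).2)
      else ((cs (x :: R)).1 + (if e + 1 ∈ x :: R then 1 else 0), (cs (x :: R)).2)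

/-- the stack of the reversed prefix -/
def st (R : List ℕ) : List ℕ := push1 (cs R).1 (cs R).2

theorem push1_zero (σ : List ℕ) : push1 0 σ = σ := by
  unfold push1
  rw [if_pos rfl]

theorem push1_pos {b : ℕ} (h : b ≠ 0) (σ : List ℕ) : push1 b σ = b :: σ := by
  unfold push1
  rw [if_neg h]

theorem cs_zero (R : List ℕ) (h : (cs R).1 = 0) : (cs R).2 = [] := by
  induction R with
  | nil => rfl
  | cons e R ih =>
    cases R with
    | nil => rfl
    | cons x R =>
      unfold cs at h ⊢
      by_cases h1 : e < x
      · rw [if_pos h1] at h
        simp at h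
      · rw [if_neg h1] at h ⊢
        simp only at h ⊢
        exact ih (by omega)

/-- the Fishburn condition for the reversed prefix -/
def FR : List ℕ → Prop
  | [] => True
  | [_] => True
  | e :: x :: R => (e < x → e + 1 ∈ x :: R) ∧ FR (x :: R)

theorem fshI_prefix {A B : List ℕ} (h : FshI (A ++ B)) : FshI A := by
  intro A' x y B' h1 h2
  exact h A' x y (B' ++ B) (by rw [h1]; simp) h2

theorem fr_of {R : List ℕ} (h : FshI R.reverse) : FR R := by
  induction R with
  | nil => trivial
  | cons e R ih =>
    cases R with
    | nil => trivial
    | cons x R =>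
      have e1 : (e :: x :: R).reverse = (x :: R).reverse ++ [e] := by simp
      refine ⟨fun h1 => ?_, ih (fshI_prefix (by rw [← e1]; exact h))⟩
      rcases h R.reverse x e [] (by simp) h1 with h2 | h2
      · rw [h2]; simp
      · exact mem_cons_of_mem _ (by simpa using h2)

open Classical in
/-- number of the valid sites of `Q ++ B` which are not to the left of `(Q, B)` -/
noncomputable def nR : List ℕ → List ℕ → ℕ
  | Q, [] => if V1 Q [] then 1 else 0
  | Q, b :: B => (if V1 Q (b :: B) then 1 else 0) + nR (Q ++ [b]) B

theorem nR_zero (B : List ℕ) : ∀ Q : List ℕ, ¬ Av321 Q → nR Q B = 0 := by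
  induction B with
  | nil =>
    intro Q h
    unfold nR
    rw [if_neg (fun h1 => h h1.1)]
  | cons b B ih =>
    intro Q h
    unfold nR
    rw [if_neg (fun h1 => h h1.1), ih (Q ++ [b]) (fun h1 => h (av_mono h1 (sublist_append_left _ _)))]

theorem nR_congr (B : List ℕ) : ∀ (Q Q' : List ℕ)
    (_ : ∀ B' B'' : List ℕ, B' ++ B'' = B → (V1 (Q ++ B') B'' ↔ V1 (Q' ++ B') B'')),
    nR Q B = nR Q' B := by
  induction B with
  | nil =>
    intro Q Q' h
    have h1 := h [] [] rfl
    simp only [append_nil] at h1
    unfold nR
    by_cases h2 : V1 Q []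
    · rw [if_pos h2, if_pos (h1.1 h2)]
    · rw [if_neg h2, if_neg (fun h3 => h2 (h1.2 h3))]
  | cons b B ih =>
    intro Q Q' h
    have h1 := h [] (b :: B) rfl
    simp only [append_nil] at h1
    unfold nR
    rw [ih (Q ++ [b]) (Q' ++ [b]) (fun B' B'' h2 => by
      have h3 := h (b :: B') B'' (by rw [cons_append, h2])
      simpa using h3)]
    by_cases h2 : V1 Q (b :: B)
    · rw [if_pos h2, if_pos (h1.1 h2)]
    · rw [if_neg h2, if_neg (fun h3 => h2 (h1.2 h3))]

theorem V1_new {N m : ℕ} {Q S T : List ℕ} (hm : m ∈ Q) (hmN : m + 1 = N)
    (hl : Q.length + S.length + T.length = N) (hS : ∀ v ∈ S, v < m) (hT : ∀ v ∈ T, v < m)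
    (hQ : ∀ v ∈ Q, v < N) : V1 (Q ++ N :: S) T ↔ V1 (Q ++ S) T := by
  rw [V1_iff, V1_iff, av_insert (by
    intro v hv
    rcases mem_append.1 hv with h | h
    · exact hQ v h
    · have := hS v h
      omega)]
  have h1 : Av321 (Q ++ S) → Inc S := by
    intro h
    rw [inc_iff]
    intro a b h2 h3
    have h4 : [m, a, b].Sublist (Q ++ S) := (singleton_sublist.2 hm).append h2
    exact h m a b h4 ⟨h3, hS a (h2.subset (by simp))⟩
  have h2 : Gd (Q ++ N :: S) T ↔ Gd (Q ++ S) T := by
    cases T with
    | nil => exact ⟨fun _ => gd_nil _, fun _ => gd_nil _⟩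
    | cons e T =>
      rw [gd_cons, gd_cons]
      have he := hT e (by simp)
      simp only [length_append, length_cons, mem_append, mem_cons] at hl ⊢
      constructor
      · rintro ((h | h | h) | h)
        · exact Or.inl (Or.inl h)
        · omega
        · exact Or.inl (Or.inr h)
        · omega
      · rintro ((h | h) | h)
        · exact Or.inl (Or.inl h)
        · exact Or.inl (Or.inr (Or.inr h))
        · omega
  rw [h2]
  tauto

theorem nR_new {N m : ℕ} {Q B : List ℕ} (hm : m ∈ Q) (hmN : m + 1 = N)
    (hl : Q.length + B.length = N) (hB : ∀ v ∈ B, v < m) (hQ : ∀ v ∈ Q, v < N) :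
    nR (Q ++ [N]) B = nR Q B := by
  refine nR_congr B _ _ (fun B' B'' h => ?_)
  subst h
  rw [append_assoc, singleton_append]
  simp only [length_append] at hl
  exact V1_new hm hmN (by omega) (fun v hv => hB v (mem_append_left _ hv))
    (fun v hv => hB v (mem_append_right _ hv)) hQ

theorem V1_swap {N x e : ℕ} {Q S T : List ℕ} (hxe : x < e)
    (hN : ∀ v ∈ Q ++ x :: e :: S, v < N) :
    V1 (Q ++ N :: x :: e :: S) T ↔ V1 (Q ++ x :: N :: e :: S) T := by
  have e1 : Q ++ x :: N :: e :: S = (Q ++ [x]) ++ N :: e :: S := by simp
  have e2 : (Q ++ [x]) ++ e :: S = Q ++ x :: e :: S := by simp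
  have a1 : Av321 (Q ++ N :: x :: e :: S) ↔ Av321 (Q ++ x :: e :: S) ∧ Inc (x :: e :: S) :=
    av_insert hN
  have a2 : Av321 ((Q ++ [x]) ++ N :: e :: S) ↔ Av321 ((Q ++ [x]) ++ e :: S) ∧ Inc (e :: S) :=
    av_insert (by rw [e2]; exact hN)
  rw [e2] at a2
  rw [V1_iff, V1_iff, a1, e1, a2]
  have h1 : Inc (x :: e :: S) ↔ Inc (e :: S) := by
    rw [inc_cons x]
    constructor
    · exact fun h => h.2
    · intro h
      refine ⟨fun y hy => ?_, h⟩
      rw [inc_cons] at h
      rcases mem_cons.1 hy with h2 | h2
      · omega
      · have := h.1 y h2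
        omega
  have h2 : Gd (Q ++ N :: x :: e :: S) T ↔ Gd ((Q ++ [x]) ++ N :: e :: S) T := by
    cases T with
    | nil => exact ⟨fun _ => gd_nil _, fun _ => gd_nil _⟩
    | cons y T =>
      rw [gd_cons, gd_cons]
      simp only [length_append, length_cons, length_nil, mem_append, mem_cons, not_mem_nil,
        or_false]
      constructor
      · rintro ((h | h | h | h | h) | h)
        · exact Or.inl (Or.inl (Or.inl h))
        · exact Or.inl (Or.inr (Or.inl h))
        · exact Or.inl (Or.inl (Or.inr h))
        · exact Or.inl (Or.inr (Or.inr (Or.inl h)))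
        · exact Or.inl (Or.inr (Or.inr (Or.inr h)))
        · right; omega
      · rintro (((h | h) | h | h | h) | h)
        · exact Or.inl (Or.inl h)
        · exact Or.inl (Or.inr (Or.inr (Or.inl h)))
        · exact Or.inl (Or.inr (Or.inl h))
        · exact Or.inl (Or.inr (Or.inr (Or.inr (Or.inl h))))
        · exact Or.inl (Or.inr (Or.inr (Or.inr (Or.inr h))))
        · right; omega
  rw [h1, h2]

theorem nR_swap {N x e : ℕ} {Q B : List ℕ} (hxe : x < e)
    (hN : ∀ v ∈ Q ++ x :: e :: B, v < N) :
    nR (Q ++ [N, x, e]) B = nR (Q ++ [x, N, e]) B := by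
  refine nR_congr B _ _ (fun B' B'' h => ?_)
  subst h
  have e1 : Q ++ [N, x, e] ++ B' = Q ++ N :: x :: e :: B' := by simp
  have e2 : Q ++ [x, N, e] ++ B' = Q ++ x :: N :: e :: B' := by simp
  rw [e1, e2]
  refine V1_swap hxe fun v hv => hN v ?_
  simp only [mem_append, mem_cons] at hv ⊢
  tauto

/-- the list `l` has the state `s` -/
def Rep (l : List ℕ) (s : List ℕ × ℕ) : Prop :=
  ∃ A m B, l = A ++ m :: B ∧ (∀ v ∈ A ++ B, v < m) ∧ s.1 = st A.reverse ∧
    s.2 + 1 = nR (A ++ [m]) B

/-! ### insertions to the left of the maximum -/

open Classical in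
/-- insertions before the entries of the reversed prefix `R` -/
noncomputable def kidsL (N : ℕ) : List ℕ → List ℕ → List (List ℕ)
  | [], _ => []
  | e :: R, S => (if V1 R.reverse (e :: S) then [R.reverse ++ N :: e :: S] else [])
      ++ kidsL N R (e :: S)

open Classical in
theorem kidsL_perm (N : ℕ) (R : List ℕ) : ∀ S : List ℕ,
    (kidsL N R S ++ kidsR V1 N R.reverse S).Perm (kidsR V1 N [] (R.reverse ++ S)) := by
  induction R with
  | nil =>
    intro S
    simp [kidsL]
  | cons e R ih =>
    intro S
    have e1 : (e :: R).reverse = R.reverse ++ [e] := by simp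
    have e2 : kidsR V1 N R.reverse (e :: S) =
        (if V1 R.reverse (e :: S) then [R.reverse ++ N :: e :: S] else [])
          ++ kidsR V1 N (R.reverse ++ [e]) S := rfl
    have h := ih (e :: S)
    rw [e2] at h
    rw [e1, kidsL, append_assoc R.reverse, singleton_append]
    refine Perm.trans ?_ h
    rw [append_assoc, ← append_assoc (kidsL N R (e :: S))]
    refine Perm.trans ?_ (Perm.append_right _ perm_append_comm)
    rw [append_assoc]

/-- the states of the insertions to the left of the maximum -/
def TL : List ℕ → ℕ → List (List ℕ × ℕ)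
  | [], _ => []
  | [_], _ => []
  | e :: x :: R, k => (if e + 1 ∈ x :: R then [(st (x :: R), k)] else []) ++
      TL (x :: R) (if e < x then 1 else k + (if e + 1 ∈ x :: R then 1 else 0))

open Classical in
theorem left_rep {N : ℕ} (R : List ℕ) : ∀ (S : List ℕ) (k : ℕ), R.length + S.length = N →
    (∀ v ∈ R, v + 1 < N) → (∀ v ∈ S, v < N) → (R ++ S).Nodup → Av321 R.reverse → FR R →
    (∀ e R', R = e :: R' → nR (R'.reverse ++ [N, e]) S = k) →
    Forall₂ Rep (kidsL N R S) (TL R k) := by
  induction R with
  | nil =>
    intro S k _ _ _ _ _ _ _
    exact Forall₂.nil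
  | cons e R ih =>
    cases R with
    | nil =>
      intro S k hl hR _ _ _ _ _
      have h1 : ¬ V1 [] (e :: S) := by
        rw [V1_iff, gd_cons]
        rintro ⟨-, h2 | h2⟩
        · exact absurd h2 not_mem_nil
        · have := hR e (by simp)
          simp only [length_cons, length_nil] at hl h2
          omega
      unfold kidsL kidsL
      rw [reverse_nil, if_neg h1]
      exact Forall₂.nil
    | cons x R =>
      intro S k hl hR hS hnd hav hfr hk
      have hk0 := hk e (x :: R) rfl
      have hav' : Av321 (x :: R).reverse := av_mono hav (by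
        rw [reverse_cons (a := e)]
        exact sublist_append_left _ _)
      have heN := hR e (by simp)
      have hxN := hR x (by simp)
      have hxe : x ≠ e := by
        rintro rfl
        simp at hnd
      have hbig : ∀ v ∈ (x :: R).reverse ++ e :: S, v < N := by
        intro v hv
        simp only [mem_append, mem_reverse, mem_cons] at hv
        rcases hv with (h | h) | h | h
        · omega
        · have := hR v (by simp [h])
          omega
        · omega
        · exact hS v h
      -- validity of the site
      have hval : V1 (x :: R).reverse (e :: S) ↔ e + 1 ∈ x :: R := by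
        rw [V1_iff, gd_cons, mem_reverse]
        constructor
        · rintro ⟨-, h | h⟩
          · exact h
          · simp only [length_cons, length_reverse] at hl h
            omega
        · exact fun h => ⟨hav', Or.inl h⟩
      have hIH := ih (e :: S) (if e < x then 1 else k + (if e + 1 ∈ x :: R then 1 else 0))
        (by simp only [length_cons] at hl ⊢; omega) (fun v hv => hR v (mem_cons_of_mem _ hv))
        (fun v hv => by
          rcases mem_cons.1 hv with h | h
          · omega
          · exact hS v h)
        (by
          have : (e :: (x :: R) ++ S).Perm ((x :: R) ++ e :: S) := perm_middle.symm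
          exact this.nodup_iff.1 hnd)
        hav' hfr.2 (fun e' R' h => by
          simp only [cons.injEq] at h
          obtain ⟨rfl, rfl⟩ := h
          have hav2 : Av321 (R.reverse ++ [x]) := by
            rw [reverse_cons] at hav'
            exact hav'
          have hNx : Av321 (R.reverse ++ [N, x]) := by
            have : R.reverse ++ [N, x] = R.reverse ++ N :: [x] := rfl
            rw [this, av_insert (fun v hv => hbig v (by
              simp only [mem_append, mem_reverse, mem_cons, not_mem_nil, or_false] at hv ⊢
              tauto))]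
            exact ⟨hav2, inc_single x⟩
          have hV : V1 (R.reverse ++ [N, x]) (e :: S) ↔ e + 1 ∈ x :: R := by
            rw [V1_iff, gd_cons]
            simp only [mem_append, mem_reverse, mem_cons, not_mem_nil, or_false, length_append,
              length_reverse, length_cons, length_nil] at hl ⊢
            constructor
            · rintro ⟨-, (h | h | h) | h⟩
              · exact Or.inr h
              · omega
              · exact Or.inl h
              · omega
            · rintro (h | h)
              · exact ⟨hNx, Or.inl (Or.inr (Or.inr h))⟩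
              · exact ⟨hNx, Or.inl (Or.inl h)⟩
          rw [nR, append_assoc]
          by_cases hd : e < x
          · rw [if_pos hd, if_pos (hV.2 (hfr.1 hd)), nR_zero]
            intro h
            refine h N x e ?_ ⟨hd, by omega⟩
            exact (sublist_append_right _ _)
          · rw [if_neg hd]
            have h1 : nR (R.reverse ++ ([N, x] ++ [e])) S = k := by
              have h2 := nR_swap (Q := R.reverse) (B := S) (show x < e by omega) (fun v hv =>
                hbig v (by
                  simp only [mem_append, mem_reverse, mem_cons] at hv ⊢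
                  tauto))
              have h3 : R.reverse ++ ([N, x] ++ [e]) = R.reverse ++ [N, x, e] := rfl
              rw [h3, h2, ← hk0]
              congr 1
              simp
            rw [h1]
            by_cases h4 : e + 1 ∈ x :: R
            · rw [if_pos h4, if_pos (hV.2 h4), add_comm]
            · rw [if_neg h4, if_neg (fun h => h4 (hV.1 h)), zero_add, add_zero])
      have e1 : kidsL N (e :: x :: R) S =
          (if V1 (x :: R).reverse (e :: S) then [(x :: R).reverse ++ N :: e :: S] else [])
          ++ kidsL N (x :: R) (e :: S) := rfl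
      rw [e1, TL]
      by_cases hg : e + 1 ∈ x :: R
      · rw [if_pos hg] at hIH ⊢
        rw [if_pos (hval.2 hg), if_pos hg] at *
        refine Forall₂.cons ?_ hIH
        refine ⟨(x :: R).reverse, N, e :: S, rfl, hbig, by rw [reverse_reverse], ?_⟩
        have h1 : V1 ((x :: R).reverse ++ [N]) (e :: S) := by
          rw [V1_iff, gd_cons]
          refine ⟨?_, Or.inl (by simp only [mem_append, mem_reverse]; exact Or.inl hg)⟩
          rw [av_insert (fun v hv => hbig v (by
            simp only [mem_append, append_nil] at hv ⊢
            exact Or.inl hv)), append_nil]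
          exact ⟨hav', inc_nil⟩
        show k + 1 = nR ((x :: R).reverse ++ [N]) (e :: S)
        rw [nR, if_pos h1, append_assoc, singleton_append, hk0, add_comm]
      · rw [if_neg hg] at hIH ⊢
        rw [if_neg (fun h => hg (hval.1 h)), if_neg hg] at *
        simpa using hIH

theorem TL_perm (R : List ℕ) (hfr : FR R) : ∀ k : ℕ, (TL R k).Perm
    ((range (cs R).1).map (fun p => (push1 p (cs R).2, (cs R).1 - 1 - p + k)) ++
      low1 (cs R).2) := by
  induction R with
  | nil =>
    intro k
    simp [TL, cs, low1]
  | cons e R ih =>
    cases R with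
    | nil =>
      intro k
      simp [TL, cs, low1]
    | cons x R =>
      intro k
      have ih := ih hfr.2
      rw [TL, cs]
      by_cases hd : e < x
      · rw [if_pos hd, if_pos hd, if_pos (hfr.1 hd)]
        simp only [range_one, map_cons, map_nil, push1_zero]
        have h1 : low1 (st (x :: R)) =
            (range (cs (x :: R)).1).map (fun p => (push1 p (cs (x :: R)).2,
              (cs (x :: R)).1 - 1 - p + 1)) ++ low1 (cs (x :: R)).2 := by
          unfold st
          by_cases h0 : (cs (x :: R)).1 = 0
          · rw [h0, push1_zero]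
            simp
          · rw [push1_pos h0, low1]
            congr 1
            refine map_congr_left fun p hp => ?_
            rw [mem_range] at hp
            rw [Prod.mk.injEq]
            exact ⟨rfl, by omega⟩
        have h2 := ih 1
        rw [← h1] at h2
        simp only [singleton_append, Nat.sub_self, zero_add]
        exact Perm.cons _ h2
      · rw [if_neg hd, if_neg hd]
        simp only
        by_cases hg : e + 1 ∈ x :: R
        · rw [if_pos hg]
          simp only [if_pos hg]
          rw [range_succ, map_append]
          simp only [map_cons, map_nil]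
          have h2 := ih (k + 1)
          have h3 : (range (cs (x :: R)).1).map (fun p => (push1 p (cs (x :: R)).2,
              (cs (x :: R)).1 + 1 - 1 - p + k)) = (range (cs (x :: R)).1).map
              (fun p => (push1 p (cs (x :: R)).2, (cs (x :: R)).1 - 1 - p + (k + 1))) := by
            refine map_congr_left fun p hp => ?_
            rw [mem_range] at hp
            rw [Prod.mk.injEq]
            exact ⟨rfl, by omega⟩
          rw [h3, singleton_append]
          have h4 : (cs (x :: R)).1 + 1 - 1 - (cs (x :: R)).1 + k = k := by omega
          rw [h4]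
          refine (Perm.cons _ h2).trans ?_
          rw [append_assoc]
          exact perm_middle.symm
        · rw [if_neg hg]
          simp only [if_neg hg, add_zero, nil_append]
          exact ih k

theorem TL_blk {R : List ℕ} (hfr : FR R) : (TL R 2).Perm (blk1 (st R)) := by
  refine (TL_perm R hfr 2).trans ?_
  unfold st
  by_cases h0 : (cs R).1 = 0
  · rw [h0, push1_zero, cs_zero R h0]
    simp [blk1, low1]
  · rw [push1_pos h0, blk1]
    refine Perm.append_right _ (Perm.of_eq ?_)
    refine map_congr_left fun p hp => ?_
    rw [mem_range] at hp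
    rw [Prod.mk.injEq]
    exact ⟨rfl, by omega⟩

end Pool.Agent.T9h72.Fish
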